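import Pool.Agent.H43.XR2.FLX

/-!
# XR2, row FLB: basic facts on flips
-/

set_option autoImplicit false

open MeasureTheory Set Filter Topology Metric
open scoped Real ENNReal

namespace Pool.XR2

open Pool.Agent.H45.XR

namespace FLB

open FLX

theorem tc_add_pi (φ : ℝ) (z : ℂ) : tc (φ + π) z = - tc φ z := B3.tc_add_pi φ z

theorem F_sub {F : ℝ → ℝ} (hper : ∀ θ, F (θ + 2 * π) = F θ - 2 * π) (x : ℝ) :
    F (x - 2 * π) = F x + 2 * π := by
  have := hper (x - 2 * π)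
  rw [sub_add_cancel] at this
  linarith

/-- the flip for the opposite direction -/
theorem isFlip_add_pi {C : Set ℂ} (hC : Body C) {φ : ℝ} {F : ℝ → ℝ} (h : IsFlip C φ F) :
    IsFlip C (φ + π) (fun x => F x + 2 * π) := by
  have hpi := Real.pi_pos
  obtain ⟨r, hr1, hr2, hr3, hr4⟩ := h.rt
  obtain ⟨l, hl1, hl2, hl3, hl4⟩ := h.lt
  refine ⟨fun x y hxy => by simpa using h.anti hxy, ?_, ?_, ?_, ?_, ?_, ?_⟩
  · intro θ
    show F (F θ + 2 * π) + 2 * π = θ
    rw [h.per, h.inv]; ring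
  · intro θ
    show F (θ + 2 * π) + 2 * π = F θ + 2 * π - 2 * π
    rw [h.per]; ring
  · intro θ
    show tc (φ + π) (pt C (F θ + 2 * π)) = tc (φ + π) (pt C θ)
    rw [pt_periodic, tc_add_pi, tc_add_pi, h.line]
  · intro θ θ' h1 h2
    show F θ + 2 * π = θ' ↔ Phi C θ θ' = φ + π
    have h3 : θ' - 2 * π < θ := by linarith
    have h4 : θ < θ' - 2 * π + 2 * π := by linarith
    have h5 := Phi_shift hC h3 h4
    rw [sub_add_cancel] at h5
    rw [h5]
    have h6 := h.phi _ _ h3 h4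
    constructor
    · intro h7
      have h8 : F (θ' - 2 * π) = θ := by
        have : θ' - 2 * π = F θ := by linarith
        rw [this, h.inv]
      rw [h6.1 h8]
    · intro h7
      have h8 : F (θ' - 2 * π) = θ := h6.2 (by linarith)
      have h9 := h.inv (θ' - 2 * π)
      rw [h8] at h9
      linarith
  · refine ⟨l, by linarith, by linarith, ?_, ?_⟩
    · show F l + 2 * π = l
      rw [hl3]; ring
    · intro z hz
      rw [tc_add_pi, tc_add_pi]
      linarith [hl4 z hz]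
  · refine ⟨r + 2 * π, by linarith, by linarith, ?_, ?_⟩
    · show F (r + 2 * π) + 2 * π = r + 2 * π - 2 * π
      rw [h.per, hr3]; ring
    · intro z hz
      rw [pt_periodic, tc_add_pi, tc_add_pi]
      linarith [hr4 z hz]

/-- the only fixed points are the two tips -/
theorem fx_cases {C : Set ℂ} {φ : ℝ} {F : ℝ → ℝ} (h : IsFlip C φ F) {x : ℝ} (hx : Fx F x) :
    (∀ z ∈ C, tc φ (pt C x) ≤ tc φ z) ∨ ∀ z ∈ C, tc φ z ≤ tc φ (pt C x) := by
  have hpi := Real.pi_pos
  obtain ⟨r, hr1, hr2, hr3, hr4⟩ := h.rt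
  obtain ⟨l, hl1, hl2, hl3, hl4⟩ := h.lt
  obtain ⟨k, hk⟩ := hx
  rcases Int.even_or_odd k with ⟨j, hj⟩ | ⟨j, hj⟩
  · left
    have hk' : (k : ℝ) = j + j := by exact_mod_cast hj
    have e1 := per_int h.per j x
    have e2 : F (x + j * (2 * π)) = x + j * (2 * π) := by rw [e1, hk, hk']; ring
    have e3 : x + j * (2 * π) = r := by
      rcases lt_trichotomy (x + j * (2 * π)) r with h' | h' | h'
      · have := h.anti h'
        rw [hr3, e2] at this
        linarith
      · exact h'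
      · have := h.anti h'
        rw [hr3, e2] at this
        linarith
    rw [← pt_int C j x, e3]
    exact hr4
  · right
    have hk' : (k : ℝ) = 2 * j + 1 := by exact_mod_cast hj
    have e1 := per_int h.per (j + 1) x
    have e2 : F (x + (j + 1 : ℤ) * (2 * π)) = x + (j + 1 : ℤ) * (2 * π) - 2 * π := by
      rw [e1, hk, hk']; push_cast; ring
    have e3 : x + (j + 1 : ℤ) * (2 * π) = l := by
      rcases lt_trichotomy (x + (j + 1 : ℤ) * (2 * π)) l with h' | h' | h'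
      · have := h.anti h'
        rw [hl3, e2] at this
        linarith
      · exact h'
      · have := h.anti h'
        rw [hl3, e2] at this
        linarith
    rw [← pt_int C (j + 1) x, e3]
    exact hl4

/-- interior points have levels strictly between the extreme ones -/
theorem lvl_of_interior {C : Set ℂ} (hC : Body C) (φ : ℝ) {z : ℂ} (hz : z ∈ interior C) :
    ∃ κ > 0, (∃ w ∈ C, tc φ w + κ ≤ tc φ z) ∧ ∃ w ∈ C, tc φ z + κ ≤ tc φ w := by
  obtain ⟨r, -, -, hr0, hr⟩ := B3.exists_tip hC φ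
  obtain ⟨l, -, -, hl0, hl⟩ := B3.exists_tip hC (φ + π)
  have h1 := (B3.tip_le hC hr0 hr (interior_subset hz)).2 hz
  have h2 := (B3.tip_le hC hl0 hl (interior_subset hz)).2 hz
  rw [tc_add_pi, tc_add_pi] at h2
  refine ⟨min (tc φ z - tc φ (pt C r)) (tc φ (pt C l) - tc φ z), by
    apply lt_min <;> linarith, ⟨pt C r, pt_mem hC r, ?_⟩, ⟨pt C l, pt_mem hC l, ?_⟩⟩
  · have := min_le_left (tc φ z - tc φ (pt C r)) (tc φ (pt C l) - tc φ z)
    linarith
  · have := min_le_right (tc φ z - tc φ (pt C r)) (tc φ (pt C l) - tc φ z)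
    linarith

theorem not_lv_of_extreme {C : Set ℂ} {φ κ x : ℝ} (hκ : 0 < κ)
    (h : (∀ z ∈ C, tc φ (pt C x) ≤ tc φ z) ∨ ∀ z ∈ C, tc φ z ≤ tc φ (pt C x)) :
    ¬ Lv C φ κ x := by
  rintro ⟨⟨z, hz, hz1⟩, w, hw, hw1⟩
  rcases h with h | h
  · have := h z hz
    linarith
  · have := h w hw
    linarith

theorem fx_iff {C : Set ℂ} (hC : Body C) {φ : ℝ} (hS : NoSeg C φ) {F : ℝ → ℝ}
    (h : IsFlip C φ F) (x : ℝ) :
    Fx F x ↔ ∀ s : ℝ, pt C x + s * e φ ∈ C → s = 0 := by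
  constructor
  · intro hx s hs
    by_contra hs0
    have hne : pt C x ≠ pt C x + s * e φ := by
      intro h1
      have h2 : (s : ℂ) * e φ = 0 := by linear_combination -h1
      rcases mul_eq_zero.mp h2 with h3 | h3
      · exact hs0 (by exact_mod_cast h3)
      · exact e_ne_zero _ h3
    obtain ⟨z, hz, hz1⟩ := hS _ (pt_mem hC x) _ hs hne (by rw [tc_add, tc_mul, tc_e_self]; ring)
    obtain ⟨κ, hκ, h1, h2⟩ := lvl_of_interior hC φ hz
    refine not_lv_of_extreme hκ (fx_cases h hx) ⟨?_, ?_⟩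
    · obtain ⟨w, hw, hw1⟩ := h1
      exact ⟨w, hw, by rw [← hz1]; exact hw1⟩
    · obtain ⟨w, hw, hw1⟩ := h2
      exact ⟨w, hw, by rw [← hz1]; exact hw1⟩
  · intro hs
    have h1 := eq_add_of_tc_eq (h.line x)
    have h2 := hs _ (by rw [← h1]; exact pt_mem hC _)
    rw [h2] at h1
    have h3 : pt C (F x) = pt C x := by simpa using h1
    obtain ⟨n, hn⟩ := B3.pt_eq hC h3
    exact ⟨n, hn⟩

theorem not_fx_iff {C : Set ℂ} (hC : Body C) {φ : ℝ} (hS : NoSeg C φ) {F : ℝ → ℝ}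
    (h : IsFlip C φ F) (x : ℝ) : ¬ Fx F x ↔ ∃ κ > 0, Lv C φ κ x := by
  constructor
  · intro hx
    rw [fx_iff hC hS h] at hx
    push Not at hx
    obtain ⟨s, hs, hs0⟩ := hx
    have hne : pt C x ≠ pt C x + s * e φ := by
      intro h1
      have h2 : (s : ℂ) * e φ = 0 := by linear_combination -h1
      rcases mul_eq_zero.mp h2 with h3 | h3
      · exact hs0 (by exact_mod_cast h3)
      · exact e_ne_zero _ h3
    obtain ⟨z, hz, hz1⟩ := hS _ (pt_mem hC x) _ hs hne (by rw [tc_add, tc_mul, tc_e_self]; ring)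
    obtain ⟨κ, hκ, h1, h2⟩ := lvl_of_interior hC φ hz
    refine ⟨κ, hκ, ?_, ?_⟩
    · obtain ⟨w, hw, hw1⟩ := h1
      exact ⟨w, hw, by rw [← hz1]; exact hw1⟩
    · obtain ⟨w, hw, hw1⟩ := h2
      exact ⟨w, hw, by rw [← hz1]; exact hw1⟩
  · rintro ⟨κ, hκ, hl⟩ hx
    exact not_lv_of_extreme hκ (fx_cases h hx) hl

theorem deg1_comp {F G : ℝ → ℝ} (hF : StrictAnti F) (hG : StrictAnti G)
    (pF : ∀ θ, F (θ + 2 * π) = F θ - 2 * π) (pG : ∀ θ, G (θ + 2 * π) = G θ - 2 * π) :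
    Deg1 (fun x => G (F x)) := by
  refine ⟨fun x y hxy => hG (hF hxy), fun x => ?_⟩
  show G (F (x + 2 * π)) = G (F x) + 2 * π
  rw [pF, F_sub pG]

end FLB

open FLX FLB in
/-- **Row FLB.** -/
theorem t_flb (hflx : FLXStmt) : FLBStmt := by
  intro C φ hC hS
  obtain ⟨h, hu⟩ := hflx C φ hC hS
  have hcont : Continuous (fl C φ) := anti_continuous h.anti h.inv
  refine ⟨hcont, fun x => fx_iff hC hS h x, ?_, ?_, fun x => not_fx_iff hC hS h x, ?_⟩
  · intro x
    have h1 := isFlip_add_pi hC h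
    have h2 := (hflx C (φ + π) hC (B3.noSeg_add_pi hS)).2 _ h1
    exact (congrFun h2 x).symm
  · intro x h1 h2
    have h3 := (h.phi _ _ h1 h2).1 (h.inv x)
    obtain ⟨s, hs, hs1⟩ := Phi_spec hC h1 h2
    rw [h3] at hs1
    exact ⟨s, hs, hs1⟩
  · intro ψ hψ
    obtain ⟨h', -⟩ := hflx C ψ hC hψ
    exact ⟨deg1_comp (F := fl C φ) (G := fl C ψ) h.anti h'.anti h.per h'.per,
      (anti_continuous h'.anti h'.inv).comp hcont⟩

end Pool.XR2
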