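import Pool.Agent.H43.XR2.MNF

/-!
# XR2, row FLC: continuity of flips
-/

set_option autoImplicit false

open MeasureTheory Set Filter Topology Metric
open scoped Real ENNReal

namespace Pool.XR2

open Pool.Agent.H45.XR

namespace FLC

open FLX FLB MNF

theorem phi_lim {C : ℕ → Set ℂ} {D : Set ℂ} (hD : Body D) (hB : BLim C D) {θ θ' : ℝ}
    (h1 : θ < θ') (h2 : θ' < θ + 2 * π) :
    Tendsto (fun n => Phi (C n) θ θ') atTop (𝓝 (Phi D θ θ')) := by
  have t1 := hB.tendsto_at θ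
  have t2 := hB.tendsto_at θ'
  have t1' : Tendsto (fun n => (rad (C n) θ : ℂ)) atTop (𝓝 (rad D θ : ℂ)) :=
    (Complex.continuous_ofReal.tendsto _).comp t1
  have t2' : Tendsto (fun n => (rad (C n) θ' : ℂ)) atTop (𝓝 (rad D θ' : ℂ)) :=
    (Complex.continuous_ofReal.tendsto _).comp t2
  have t3 : Tendsto (fun n => (rad (C n) θ' : ℂ) - (rad (C n) θ : ℂ) * e (-(θ' - θ))) atTop
      (𝓝 ((rad D θ' : ℂ) - (rad D θ : ℂ) * e (-(θ' - θ)))) :=
    t2'.sub (t1'.mul tendsto_const_nhds)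
  have t4 := (Complex.continuousAt_arg (A2.zz_slit hD h1 h2)).tendsto.comp t3
  exact tendsto_const_nhds.add t4

theorem ptw1 (hflx : FLXStmt) {C : ℕ → Set ℂ} {D : Set ℂ} {φ : ℕ → ℝ} {ψ y : ℝ}
    (hC : ∀ n, Body (C n)) (hS : ∀ n, NoSeg (C n) (φ n)) (hD : Body D) (hSD : NoSeg D ψ)
    (hB : BLim C D) (hφ : Tendsto φ atTop (𝓝 ψ)) (h1 : y < fl D ψ y)
    (h2 : fl D ψ y < y + 2 * π) :
    Tendsto (fun n => fl (C n) (φ n) y) atTop (𝓝 (fl D ψ y)) := by
  rw [Metric.tendsto_atTop]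
  intro ε hε
  set z := fl D ψ y with hz
  have hPhi : Phi D y z = ψ := ((hflx D ψ hD hSD).1.phi _ _ h1 h2).1 rfl
  obtain ⟨zm, hzm1, hzm2⟩ := exists_between (max_lt h1 (by linarith : z - ε < z))
  obtain ⟨zp, hzp1, hzp2⟩ := exists_between (lt_min h2 (by linarith : z < z + ε))
  have m1 : y < zm := (le_max_left _ _).trans_lt hzm1
  have m2 : z - ε < zm := (le_max_right _ _).trans_lt hzm1
  have p1 : zp < y + 2 * π := hzp2.trans_le (min_le_left _ _)
  have p2 : zp < z + ε := hzp2.trans_le (min_le_right _ _)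
  have q1 : ψ < Phi D y zp := by
    have := A2.strict_right hD h1 hzp1 p1 (by rw [hPhi]; exact hSD)
    rwa [hPhi] at this
  have q2 : Phi D y zm < ψ := by
    have h3 := A2.mono_right hD m1 hzm2.le h2
    rw [hPhi] at h3
    refine lt_of_le_of_ne h3 fun h4 => ?_
    have := A2.strict_right hD m1 hzm2 h2 (by rw [h4]; exact hSD)
    rw [h4, hPhi] at this
    exact lt_irrefl _ this
  have e1 := (hφ.eventually_lt (phi_lim hD hB (by linarith : y < zp) p1) q1)
  have e2 := ((phi_lim hD hB m1 (by linarith : zm < y + 2 * π)).eventually_lt hφ q2)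
  obtain ⟨N, hN⟩ := Filter.eventually_atTop.1 (e1.and e2)
  refine ⟨N, fun n hn => ?_⟩
  obtain ⟨g1, g2⟩ := hN n hn
  have hcont : ContinuousOn (fun w => Phi (C n) y w) (Icc zm zp) := by
    have := (Phi_cont (hC n)).comp (f := fun w : ℝ => ((y, w) : ℝ × ℝ)) (s := Icc zm zp)
      (by fun_prop) (fun w hw => ⟨by
        show y < w
        linarith [hw.1], by
        show w < y + 2 * π
        linarith [hw.2]⟩)
    exact this
  obtain ⟨w, hw, hw1⟩ := intermediate_value_Icc (by linarith : zm ≤ zp) hcont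
    (show φ n ∈ Icc (Phi (C n) y zm) (Phi (C n) y zp) from ⟨g2.le, g1.le⟩)
  have h5 : fl (C n) (φ n) y = w :=
    ((hflx (C n) (φ n) (hC n) (hS n)).1.phi _ _ (by linarith [hw.1]) (by linarith [hw.2])).2 hw1
  rw [h5, Real.dist_eq, abs_lt]
  constructor <;> linarith [hw.1, hw.2]

theorem ptw (hflx : FLXStmt) {C : ℕ → Set ℂ} {D : Set ℂ} {φ : ℕ → ℝ} {ψ y : ℝ}
    (hC : ∀ n, Body (C n)) (hS : ∀ n, NoSeg (C n) (φ n)) (hD : Body D) (hSD : NoSeg D ψ)
    (hB : BLim C D) (hφ : Tendsto φ atTop (𝓝 ψ)) (h : ¬ Fx (fl D ψ) y) :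
    Tendsto (fun n => fl (C n) (φ n) y) atTop (𝓝 (fl D ψ y)) := by
  have hu : ∀ k : ℤ, fl D ψ y - y ≠ k * (2 * π) := fun k hk => h ⟨k, by linarith⟩
  obtain ⟨m, hm1, hm2⟩ := exists_shift hu
  have hk := fun n => fl_int hflx (hC n) (hS n) (-m)
  have hkD := fl_int hflx hD hSD (-m)
  have hkDy := hkD.2 y
  push_cast at hkDy
  have h3 := ptw1 hflx (C := C) (D := D) (φ := fun n => φ n + ((-m : ℤ) : ℝ) * π)
    (ψ := ψ + ((-m : ℤ) : ℝ) * π) (y := y) hC (fun n => (hk n).1) hD hkD.1 hB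
    (hφ.add tendsto_const_nhds) (by rw [hkD.2]; push_cast; linarith)
    (by rw [hkD.2]; push_cast; linarith)
  have h4 : (fun n => fl (C n) (φ n + ((-m : ℤ) : ℝ) * π) y) =
      fun n => fl (C n) (φ n) y + ((-m : ℤ) : ℝ) * (2 * π) := by
    funext n
    exact (hk n).2 y
  rw [h4, hkD.2] at h3
  have h5 := h3.sub (tendsto_const_nhds (x := ((-m : ℤ) : ℝ) * (2 * π)))
  simpa using h5

end FLC

open FLX FLB MNF FLC in
/-- **Row FLC.** -/
theorem t_flc (hflx : FLXStmt) (_hflb : FLBStmt) : FLCStmt := by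
  intro C D φ ψ x y hC hS hD hSD hB hφ hx
  have hF := (hflx D ψ hD hSD).1
  have hcont : Continuous (fl D ψ) := anti_continuous hF.anti hF.inv
  have hdense : Dense {x | Fx (fl D ψ) x}ᶜ := (fx_countable hF.anti).dense_compl ℝ
  rw [Metric.tendsto_atTop]
  intro ε hε
  obtain ⟨δ, hδ, hδ1⟩ := Metric.continuous_iff.1 hcont y (ε / 2) (by positivity)
  obtain ⟨a, ha, ha1⟩ := hdense.exists_between (by linarith : y - δ < y)
  obtain ⟨b, hb, hb1⟩ := hdense.exists_between (by linarith : y < y + δ)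
  have da := hδ1 a (by rw [Real.dist_eq, abs_lt]; constructor <;> linarith [ha1.1, ha1.2])
  have db := hδ1 b (by rw [Real.dist_eq, abs_lt]; constructor <;> linarith [hb1.1, hb1.2])
  rw [Real.dist_eq, abs_lt] at da db
  have ta := ptw hflx hC hS hD hSD hB hφ ha
  have tb := ptw hflx hC hS hD hSD hB hφ hb
  have e1 := hx.eventually (Ioo_mem_nhds ha1.2 hb1.1)
  have e2 := ta.eventually (gt_mem_nhds (by linarith : fl D ψ a < fl D ψ a + ε / 2))
  have e3 := tb.eventually (lt_mem_nhds (by linarith : fl D ψ b - ε / 2 < fl D ψ b))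
  obtain ⟨N, hN⟩ := Filter.eventually_atTop.1 (e1.and (e2.and e3))
  refine ⟨N, fun n hn => ?_⟩
  obtain ⟨g1, g2, g3⟩ := hN n hn
  have hFn := (hflx (C n) (φ n) (hC n) (hS n)).1
  have k1 := hFn.anti g1.1
  have k2 := hFn.anti g1.2
  rw [Real.dist_eq, abs_lt]
  constructor <;> linarith [da.1, da.2, db.1, db.2]

end Pool.XR2
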