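import Pool.Agent.H52.XR2.S1
import Pool.Agent.H7.XR.A2

/-!
# XR2, row FLX: existence and uniqueness of the flip
-/

set_option autoImplicit false

open MeasureTheory Set Filter Topology Metric
open scoped Real ENNReal

namespace Pool.XR2

open Pool.Agent.H45.XR

namespace FLX

/-- a point of a body which is alone on its line has an extreme level -/
theorem tip_char {D : Set ℂ} (hD : Body D) {φ : ℝ} {p : ℂ}
    (hs : ∀ s : ℝ, p + s * e φ ∈ D → s = 0) :
    (∀ z ∈ D, tc φ p ≤ tc φ z) ∨ ∀ z ∈ D, tc φ z ≤ tc φ p := by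
  obtain ⟨δ, hδ, hball⟩ := Metric.mem_nhds_iff.1 hD.nhds
  have hw : ∀ σ : ℝ, |σ| ≤ 1 → ((σ * (δ / 2) : ℝ) : ℂ) * e φ ∈ D := by
    intro σ hσ
    apply hball
    rw [Metric.mem_ball, dist_zero_right, norm_mul, norm_e, mul_one, Complex.norm_real,
      Real.norm_eq_abs, abs_mul, abs_of_pos (by positivity : 0 < δ / 2)]
    nlinarith
  have key : ∀ z ∈ D, tc φ z * tc φ p ≥ 0 → |tc φ p| < |tc φ z| ∨ (tc φ p = 0 ∧ tc φ z ≠ 0) →
      False := by
    intro z hz hsign hlt
    have hz0 : tc φ z ≠ 0 := by
      rcases hlt with h | h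
      · intro h0
        rw [h0, abs_zero] at h
        exact absurd h (not_lt.2 (abs_nonneg _))
      · exact h.2
    set lam : ℝ := tc φ p / tc φ z with hlam
    have hl0 : 0 ≤ lam := by
      rw [hlam, div_eq_mul_inv]
      have : 0 < tc φ z ^ 2 := by positivity
      have h2 : tc φ p * (tc φ z)⁻¹ = (tc φ z * tc φ p) / tc φ z ^ 2 := by field_simp
      rw [h2]
      positivity
    have hl1 : lam < 1 := by
      rcases hlt with h | h
      · have h3 : |lam| < 1 := by
          rw [hlam, abs_div, div_lt_one (abs_pos.2 hz0)]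
          exact h
        exact (le_abs_self _).trans_lt h3
      · rw [hlam, h.1, zero_div]
        exact one_pos
    have hmem : ∀ σ : ℝ, |σ| ≤ 1 →
        (lam : ℂ) * z + ((1 - lam : ℝ) : ℂ) * (((σ * (δ / 2) : ℝ) : ℂ) * e φ) ∈ D := by
      intro σ hσ
      have := hD.conv hz (hw σ hσ) hl0 (by linarith : 0 ≤ 1 - lam) (by ring)
      simpa only [Complex.real_smul] using this
    have hlev : tc φ ((lam : ℂ) * z) = tc φ p := by
      rw [tc_mul, hlam]
      field_simp
    have hdec := eq_add_of_tc_eq hlev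
    set y : ℝ := yc φ ((lam : ℂ) * z) - yc φ p with hy
    have h1 := hs (y + (1 - lam) * (1 * (δ / 2))) (by
      have := hmem 1 (by simp)
      rw [hdec] at this
      convert this using 1
      push_cast
      ring)
    have h2 := hs (y + (1 - lam) * (0 * (δ / 2))) (by
      have := hmem 0 (by simp)
      rw [hdec] at this
      convert this using 1
      push_cast
      ring)
    have h3 : 0 < (1 - lam) * (1 * (δ / 2)) := by
      have : 0 < 1 - lam := by linarith
      positivity
    linarith
  by_contra hcon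
  push Not at hcon
  obtain ⟨⟨z, hz, hz1⟩, z', hz', hz1'⟩ := hcon
  rcases lt_trichotomy (tc φ p) 0 with h | h | h
  · exact key z hz (by nlinarith) (Or.inl (by
      rw [abs_of_neg h, abs_of_neg (by linarith)]
      linarith))
  · exact key z hz (by rw [h]; simp) (Or.inr ⟨h, by rw [h] at hz1; exact hz1.ne⟩)
  · exact key z' hz' (by nlinarith) (Or.inl (by
      rw [abs_of_pos h, abs_of_pos (by linarith)]
      linarith))

/-- integer shifts -/
theorem per_int {F : ℝ → ℝ} (hper : ∀ θ, F (θ + 2 * π) = F θ - 2 * π) (m : ℤ) (x : ℝ) :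
    F (x + m * (2 * π)) = F x - m * (2 * π) := by
  have hG : Function.Periodic (fun x => F x + x) (2 * π) := by
    intro x
    show F (x + 2 * π) + (x + 2 * π) = F x + x
    rw [hper]; ring
  have := hG.zsmul m x
  simp only [zsmul_eq_mul] at this
  linarith

theorem pt_int (C : Set ℂ) (m : ℤ) (x : ℝ) : pt C (x + m * (2 * π)) = pt C x := by
  have hp : Function.Periodic (pt C) (2 * π) := pt_periodic C
  have := hp.zsmul m x
  simpa [zsmul_eq_mul] using this

theorem rad_int (C : Set ℂ) (m : ℤ) (x : ℝ) : rad C (x + m * (2 * π)) = rad C x := by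
  have hp : Function.Periodic (rad C) (2 * π) := rad_periodic C
  have := hp.zsmul m x
  simpa [zsmul_eq_mul] using this

theorem Phi_int (C : Set ℂ) (m : ℤ) (x y : ℝ) :
    Phi C (x + m * (2 * π)) (y + m * (2 * π)) = Phi C x y + m * (2 * π) := by
  unfold Phi
  rw [rad_int, rad_int]
  have : y + m * (2 * π) - (x + m * (2 * π)) = y - x := by ring
  rw [this]
  ring

/-- not a multiple of `2π`: a shift lies strictly between the neighbours -/
theorem exists_shift {u : ℝ} (hu : ∀ k : ℤ, u ≠ k * (2 * π)) :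
    ∃ m : ℤ, 0 < u - m * (2 * π) ∧ u - m * (2 * π) < 2 * π := by
  have hP : (0:ℝ) < 2 * π := by positivity
  refine ⟨⌊u / (2 * π)⌋, ?_, ?_⟩
  · have h1 := Int.floor_le (u / (2 * π))
    rw [le_div_iff₀ hP] at h1
    have h2 := hu ⌊u / (2 * π)⌋
    rcases h1.lt_or_eq with h | h
    · linarith
    · exact absurd h.symm h2
  · have h1 := Int.lt_floor_add_one (u / (2 * π))
    rw [div_lt_iff₀ hP] at h1
    linarith

/-- the range of `Phi` -/
theorem Phi_range {C : Set ℂ} (hC : Body C) {θ θ' : ℝ} (h1 : θ < θ') (h2 : θ' < θ + 2 * π) :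
    (θ' ≤ Phi C θ θ' ∧ Phi C θ θ' ≤ θ + π) ∨ (θ + π ≤ Phi C θ θ' ∧ Phi C θ θ' ≤ θ') := by
  rcases lt_trichotomy θ' (θ + π) with h | h | h
  · obtain ⟨a1, a2⟩ := Phi_lt hC h1 h
    exact Or.inl ⟨a1.le, a2.le⟩
  · subst h
    rw [Phi_eq hC θ]
    exact Or.inl ⟨le_rfl, le_rfl⟩
  · obtain ⟨a1, a2⟩ := Phi_gt hC h h2
    exact Or.inr ⟨a1.le, a2.le⟩

theorem anti_continuous {F : ℝ → ℝ} (ha : StrictAnti F) (hi : ∀ θ, F (F θ) = θ) :
    Continuous F := by
  have h1 : Monotone (fun x => -F x) := fun x y hxy => neg_le_neg (ha.antitone hxy)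
  have h2 : Function.Surjective (fun x => -F x) := fun y => ⟨F (-y), by simp [hi]⟩
  have h3 := h1.continuous_of_surjective h2
  have : F = fun x => -(-F x) := by funext x; simp
  rw [this]
  exact h3.neg

theorem fx_countable {F : ℝ → ℝ} (ha : StrictAnti F) : {x | Fx F x}.Countable := by
  have : {x | Fx F x} = ⋃ k : ℤ, {x | F x = x + k * (2 * π)} := by
    ext x
    simp [Fx]
  rw [this]
  refine countable_iUnion fun k => ?_
  apply Set.Subsingleton.countable
  intro x hx y hy
  have hx' : F x = x + k * (2 * π) := hx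
  have hy' : F y = y + k * (2 * π) := hy
  rcases lt_trichotomy x y with h | h | h
  · have := ha h
    linarith
  · exact h
  · have := ha h
    linarith

/-- on non-fixed points two flips agree -/
theorem unique_off {C : Set ℂ} {φ : ℝ} {F G : ℝ → ℝ} (hF : IsFlip C φ F) (hG : IsFlip C φ G)
    {θ : ℝ} (hθ : ¬ Fx F θ) : F θ = G θ := by
  have hpi := Real.pi_pos
  -- a shift by multiples of `4π`
  have hu : ∀ k : ℤ, F θ - θ ≠ k * (2 * π) := fun k h => hθ ⟨k, by linarith⟩
  obtain ⟨m, hm1, hm2⟩ := exists_shift hu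
  rcases Int.even_or_odd m with ⟨j, hj⟩ | ⟨j, hj⟩
  · -- `F x - x` in `(0, 2π)` for `x = θ + 2πj`
    have e1 : F (θ + j * (2 * π)) = F θ - j * (2 * π) := per_int hF.per j θ
    have e2 : G (θ + j * (2 * π)) = G θ - j * (2 * π) := per_int hG.per j θ
    have hm : (m : ℝ) = j + j := by exact_mod_cast hj
    rw [hm] at hm1 hm2
    have h1 : θ + j * (2 * π) < F (θ + j * (2 * π)) := by rw [e1]; linarith
    have h2 : F (θ + j * (2 * π)) < θ + j * (2 * π) + 2 * π := by rw [e1]; linarith
    have h3 := (hF.phi _ _ h1 h2).1 rfl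
    have h4 := (hG.phi _ _ h1 h2).2 h3
    linarith
  · -- `F x - x` in `(-2π, 0)` for `x = θ + 2π(j+1)`
    have e1 : F (θ + (j + 1 : ℤ) * (2 * π)) = F θ - (j + 1 : ℤ) * (2 * π) :=
      per_int hF.per (j + 1) θ
    have e2 : G (θ + (j + 1 : ℤ) * (2 * π)) = G θ - (j + 1 : ℤ) * (2 * π) :=
      per_int hG.per (j + 1) θ
    have hm : (m : ℝ) = 2 * j + 1 := by exact_mod_cast hj
    rw [hm] at hm1 hm2
    set x := θ + (j + 1 : ℤ) * (2 * π) with hx
    have h1 : F x < x := by rw [e1, hx]; push_cast; linarith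
    have h2 : x < F x + 2 * π := by rw [e1, hx]; push_cast; linarith
    have h3 := (hF.phi _ _ h1 h2).1 (hF.inv x)
    have h4 := (hG.phi _ _ h1 h2).2 h3
    have h5 := hG.inv (F x)
    rw [h4] at h5
    rw [e1, e2] at h5
    linarith

theorem unique {C : Set ℂ} {φ : ℝ} {F G : ℝ → ℝ} (hF : IsFlip C φ F) (hG : IsFlip C φ G) :
    F = G := by
  have cF := anti_continuous hF.anti hF.inv
  have cG := anti_continuous hG.anti hG.inv
  have hd : Dense {x | Fx F x}ᶜ := (fx_countable hF.anti).dense_compl ℝ
  exact Continuous.ext_on hd cF cG fun x hx => unique_off hF hG hx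

theorem exists_isFlip {C : Set ℂ} {φ : ℝ} (hC : Body C) (hS : NoSeg C φ) :
    ∃ F, IsFlip C φ F := by
  have hpi := Real.pi_pos
  obtain ⟨r, l, F, hr1, hr2, hl1, hl2, f1, f2, f3, f4, f5, f6, tr, tl⟩ := B3.single hC hS
  have hFl : F (l - 2 * π) = l := by rw [← f5, f2]
  have tcr : tc φ (pt C r) < 0 := by
    rw [tc_pt]
    have h1 : Real.sin (r - φ) < 0 := Real.sin_neg_of_neg_of_neg_pi_lt (by linarith) (by linarith)
    have := rad_pos hC r
    nlinarith
  have tcl : 0 < tc φ (pt C l) := by
    rw [tc_pt]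
    have h1 : 0 < Real.sin (l - φ) := Real.sin_pos_of_pos_of_lt_pi (by linarith) (by linarith)
    have := rad_pos hC l
    positivity
  have h0 : (0 : ℂ) ∈ C := hC.zero_mem
  have minr : ∀ z ∈ C, tc φ (pt C r) ≤ tc φ z := by
    rcases tip_char hC tr with h | h
    · exact h
    · have := h 0 h0
      rw [tc_zero] at this
      linarith
  have maxl : ∀ z ∈ C, tc φ z ≤ tc φ (pt C l) := by
    rcases tip_char hC tl with h | h
    · have := h 0 h0
      rw [tc_zero] at this
      linarith
    · exact h
  -- forward direction of `phi`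
  have fwd : ∀ θ, θ < F θ → F θ < θ + 2 * π → Phi C θ (F θ) = φ := by
    intro θ h1 h2
    have hθr : θ < r := by
      by_contra hc
      push Not at hc
      have := f1.antitone hc
      rw [f4] at this
      linarith
    have hθl : l - 2 * π < θ := by
      by_contra hc
      push Not at hc
      have := f1.antitone hc
      rw [hFl] at this
      linarith
    have g1 : r < F θ := by
      have := f1 hθr
      rwa [f4] at this
    have g2 : F θ < l := by
      have := f1 hθl
      rwa [hFl] at this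
    obtain ⟨s, hs, hs1⟩ := Phi_spec hC h1 h2
    have hrange : φ - π < Phi C θ (F θ) ∧ Phi C θ (F θ) < φ + π := by
      rcases lt_trichotomy (F θ) (θ + π) with h | h | h
      · obtain ⟨a1, a2⟩ := Phi_lt hC h1 h
        constructor <;> linarith
      · have := Phi_eq hC θ
        rw [← h] at this
        rw [this]
        constructor <;> linarith
      · obtain ⟨a1, a2⟩ := Phi_gt hC h h2
        constructor <;> linarith
    have h0 := f6 θ
    rw [hs1, tc_add, tc_mul, tc_e] at h0
    have h3 : Real.sin (Phi C θ (F θ) - φ) = 0 := by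
      have : s * Real.sin (Phi C θ (F θ) - φ) = 0 := by linarith
      rcases mul_eq_zero.mp this with h | h
      · exact absurd h hs.ne'
      · exact h
    rw [Real.sin_eq_zero_iff_of_lt_of_lt (by linarith) (by linarith)] at h3
    linarith
  -- fixed points are tips
  have fix : ∀ θ (k : ℤ), F θ = θ + k * (2 * π) → ∀ s : ℝ, pt C θ + s * e φ ∈ C → s = 0 := by
    intro θ k hk
    rcases Int.even_or_odd k with ⟨j, hj⟩ | ⟨j, hj⟩
    · -- right tip
      have hk' : (k : ℝ) = j + j := by exact_mod_cast hj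
      have e1 := per_int f3 j θ
      have e2 : F (θ + j * (2 * π)) = θ + j * (2 * π) := by rw [e1, hk, hk']; ring
      have e3 : θ + j * (2 * π) = r := by
        rcases lt_trichotomy (θ + j * (2 * π)) r with h | h | h
        · have := f1 h
          rw [f4, e2] at this
          linarith
        · exact h
        · have := f1 h
          rw [f4, e2] at this
          linarith
      rw [← pt_int C j θ, e3]
      exact tr
    · have hk' : (k : ℝ) = 2 * j + 1 := by exact_mod_cast hj
      have e1 := per_int f3 (j + 1) θ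
      have e2 : F (θ + (j + 1 : ℤ) * (2 * π)) = θ + (j + 1 : ℤ) * (2 * π) - 2 * π := by
        rw [e1, hk, hk']; push_cast; ring
      have e3 : θ + (j + 1 : ℤ) * (2 * π) = l := by
        rcases lt_trichotomy (θ + (j + 1 : ℤ) * (2 * π)) l with h | h | h
        · have := f1 h
          rw [f5, e2] at this
          linarith
        · exact h
        · have := f1 h
          rw [f5, e2] at this
          linarith
      rw [← pt_int C (j + 1) θ, e3]
      exact tl
  refine ⟨F, f1, f2, f3, f6, ?_, ⟨r, hr1, hr2, f4, minr⟩, ⟨l, hl1, hl2, f5, maxl⟩⟩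
  intro θ θ' h1 h2
  constructor
  · rintro rfl
    exact fwd θ h1 h2
  · intro hPhi
    obtain ⟨s, hs, hs1⟩ := Phi_spec hC h1 h2
    rw [hPhi] at hs1
    have hne : pt C θ ≠ pt C θ' := A2.pt_ne hC h1 h2
    have hlev : tc φ (pt C θ) = tc φ (pt C θ') := by
      rw [hs1, tc_add, tc_mul, tc_e_self]; ring
    obtain ⟨z, hz, hz1⟩ := hS _ (pt_mem hC θ) _ (pt_mem hC θ') hne hlev
    have hnf : ∀ k : ℤ, F θ - θ ≠ k * (2 * π) := by
      intro k hk
      have := fix θ k (by linarith) s (by rw [← hs1]; exact pt_mem hC θ')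
      exact hs.ne' this
    have hcase : pt C (F θ) = pt C θ' := by
      by_contra hne2
      have hne3 : pt C (F θ) ≠ pt C θ := by
        intro h
        obtain ⟨n, hn⟩ := B3.pt_eq hC h
        exact hnf n (by linarith)
      exact B3.three_pts hC (pt_mem hC θ) (pt_mem hC θ') (pt_mem hC (F θ))
        (pt_notMem_interior hC _) (pt_notMem_interior hC _) (pt_notMem_interior hC _) hz hz1.symm
        (by rw [hz1]; exact hlev.symm) (by rw [hz1]; exact f6 θ) hne hne3.symm
        (fun h => hne2 h.symm)
    obtain ⟨n, hn⟩ := B3.pt_eq hC hcase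
    obtain ⟨m, hm1, hm2⟩ := exists_shift hnf
    -- `m = n`
    have hmn : m = n := by
      rw [hn] at hm1 hm2
      have a1 : ((n - m : ℤ) : ℝ) < 1 := by
        by_contra hc
        push Not at hc
        push_cast at hc
        nlinarith
      have a2 : (-1 : ℝ) < ((n - m : ℤ) : ℝ) := by
        by_contra hc
        push Not at hc
        push_cast at hc
        nlinarith
      have b1 : n - m < 1 := by exact_mod_cast a1
      have b2 : -1 < n - m := by exact_mod_cast a2
      omega
    subst hmn
    rcases Int.even_or_odd m with ⟨j, hj⟩ | ⟨j, hj⟩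
    · have hm : (m : ℝ) = j + j := by exact_mod_cast hj
      have e1 := per_int f3 j θ
      have e2 : F (θ + j * (2 * π)) = θ' + j * (2 * π) := by rw [e1, hn, hm]; ring
      have h3 := fwd (θ + j * (2 * π)) (by rw [e2]; linarith) (by rw [e2]; linarith)
      rw [e2, Phi_int, hPhi] at h3
      have h4 : (j : ℝ) * (2 * π) = 0 := by linarith
      have h5 : (j : ℝ) = 0 := by
        rcases mul_eq_zero.1 h4 with h | h
        · exact h
        · linarith
      rw [hm, h5] at hn
      linarith
    · exfalso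
      have hm : (m : ℝ) = 2 * j + 1 := by exact_mod_cast hj
      have e1 := per_int f3 (j + 1) θ
      set x := θ + (j + 1 : ℤ) * (2 * π) with hx
      have hFx : F x = θ' + (j : ℤ) * (2 * π) := by
        rw [e1, hn, hm]; push_cast; ring
      have h3 : F x < x := by rw [hFx, hx]; push_cast; linarith
      have h4 : x < F x + 2 * π := by rw [hFx, hx]; push_cast; linarith
      have h5 := fwd (F x) (by rw [f2]; exact h3) (by rw [f2]; exact h4)
      rw [f2] at h5
      obtain ⟨t, ht, ht1⟩ := Phi_spec hC h3 h4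
      rw [h5, hFx, show pt C x = pt C θ from pt_int C (j + 1) θ, pt_int, hs1] at ht1
      have h6 : ((s + t : ℝ) : ℂ) * e φ = 0 := by
        push_cast
        linear_combination (-1 : ℂ) * ht1
      rcases mul_eq_zero.1 h6 with h | h
      · have : s + t = 0 := by exact_mod_cast h
        linarith
      · exact e_ne_zero _ h

end FLX

/-- **Row FLX.** -/
theorem t_flx : FLXStmt := by
  intro C φ hC hS
  have h := FLX.exists_isFlip hC hS
  have h1 : IsFlip C φ (fl C φ) := by
    unfold fl
    rw [dif_pos h]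
    exact h.choose_spec
  exact ⟨h1, fun F hF => FLX.unique hF h1⟩

end Pool.XR2
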