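import Pool.Agent.H43.XR2.FLB

/-!
# XR2, row MNF: the flip is monotone in the direction
-/

set_option autoImplicit false

open MeasureTheory Set Filter Topology Metric
open scoped Real ENNReal

namespace Pool.XR2

open Pool.Agent.H45.XR

namespace MNF

open FLX FLB

theorem tc_sub_pi (φ : ℝ) (z : ℂ) : tc (φ - π) z = - tc φ z := by
  have := tc_add_pi (φ - π) z
  rw [sub_add_cancel] at this
  linarith

theorem noSeg_sub_pi {D : Set ℂ} {φ : ℝ} (hS : NoSeg D φ) : NoSeg D (φ - π) := by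
  intro p hp q hq hne htc
  rw [tc_sub_pi, tc_sub_pi, neg_inj] at htc
  obtain ⟨z, hz, hz1⟩ := hS p hp q hq hne htc
  exact ⟨z, hz, by rw [tc_sub_pi, tc_sub_pi, hz1]⟩

/-- flips for the directions `φ + kπ` -/
theorem fl_int (hflx : FLXStmt) {C : Set ℂ} (hC : Body C) {φ : ℝ} (hS : NoSeg C φ) (k : ℤ) :
    NoSeg C (φ + k * π) ∧ ∀ x, fl C (φ + k * π) x = fl C φ x + k * (2 * π) := by
  have step : ∀ ψ, NoSeg C ψ → ∀ x, fl C (ψ + π) x = fl C ψ x + 2 * π := by
    intro ψ hψ x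
    have h1 := isFlip_add_pi hC (hflx C ψ hC hψ).1
    have h2 := (hflx C (ψ + π) hC (B3.noSeg_add_pi hψ)).2 _ h1
    exact (congrFun h2 x).symm
  induction k using Int.induction_on with
  | zero => simpa using hS
  | succ n ih =>
    have e1 : φ + ((n : ℤ) + 1 : ℤ) * π = φ + ((n : ℤ) : ℝ) * π + π := by push_cast; ring
    rw [e1]
    refine ⟨B3.noSeg_add_pi ih.1, fun x => ?_⟩
    rw [step _ ih.1, ih.2]
    push_cast
    ring
  | pred n ih =>
    have e1 : φ + ((-(n : ℤ) - 1 : ℤ) : ℝ) * π = φ + ((-(n : ℤ) : ℤ) : ℝ) * π - π := by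
      push_cast; ring
    have h1 : NoSeg C (φ + ((-(n : ℤ) - 1 : ℤ) : ℝ) * π) := by
      rw [e1]
      exact noSeg_sub_pi ih.1
    refine ⟨h1, fun x => ?_⟩
    have h2 := step _ h1 x
    rw [e1, sub_add_cancel, ih.2] at h2
    rw [e1]
    push_cast at h2 ⊢
    linarith

/-- the right tips are monotone in the direction -/
theorem tip_mono {C : Set ℂ} (hC : Body C) {φ φ' r r' : ℝ} (hφ : φ < φ') (_h1 : φ - π < r)
    (h2 : r < φ) (h1' : φ' - π < r') (hr : ∀ z ∈ C, tc φ (pt C r) ≤ tc φ z)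
    (hr' : ∀ z ∈ C, tc φ' (pt C r') ≤ tc φ' z) : r ≤ r' := by
  have hpi := Real.pi_pos
  by_contra hcon
  push Not at hcon
  have h3 : r < r' + π := by linarith
  obtain ⟨s, hs, hs1⟩ := Phi_spec hC hcon (by linarith)
  obtain ⟨a1, a2⟩ := Phi_lt hC hcon h3
  have b1 := hr _ (pt_mem hC r')
  have b2 := hr' _ (pt_mem hC r)
  rw [hs1, tc_add, tc_mul, tc_e] at b1 b2
  have c1 : s * Real.sin (Phi C r' r - φ) ≤ 0 := by linarith
  have c2 : 0 ≤ s * Real.sin (Phi C r' r - φ') := by linarith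
  have d1 : Phi C r' r ≤ φ := by
    by_contra hc
    push Not at hc
    have : 0 < Real.sin (Phi C r' r - φ) :=
      Real.sin_pos_of_pos_of_lt_pi (by linarith) (by linarith)
    have := mul_pos hs this
    linarith
  have d2 : φ' ≤ Phi C r' r := by
    by_contra hc
    push Not at hc
    have : Real.sin (Phi C r' r - φ') < 0 :=
      Real.sin_neg_of_neg_of_neg_pi_lt (by linarith) (by linarith)
    have := mul_neg_of_pos_of_neg hs this
    linarith
  linarith

theorem core {C : Set ℂ} (hC : Body C) {φ φ' x : ℝ} {F F' : ℝ → ℝ} (hφ : φ < φ')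
    (hF : IsFlip C φ F) (hF' : IsFlip C φ' F') (h1 : x ≤ F x) (h2 : F x < x + 2 * π)
    (h3 : F' x ≤ F x) : F' x = F x ∧ Fx F x ∧ Fx F' x := by
  have hpi := Real.pi_pos
  rcases lt_or_ge x (F' x) with h | h
  · exfalso
    have e1 := (hF.phi _ _ (h.trans_le h3) h2).1 rfl
    have e2 := (hF'.phi _ _ h (h3.trans_lt h2)).1 rfl
    have := A2.mono_right hC h h3 h2
    rw [e1, e2] at this
    linarith
  · obtain ⟨r, hr1, hr2, hr3, hr4⟩ := hF.rt
    obtain ⟨r', hr1', hr2', hr3', hr4'⟩ := hF'.rt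
    have a1 : r' ≤ x := by
      by_contra hc
      push Not at hc
      have := hF'.anti hc
      rw [hr3'] at this
      linarith
    have a2 : x ≤ r := by
      by_contra hc
      push Not at hc
      have := hF.anti hc
      rw [hr3] at this
      linarith
    have a3 := tip_mono hC hφ hr1 hr2 hr1' hr4 hr4'
    have a4 : x = r := by linarith
    have a5 : x = r' := by linarith
    have b1 : F x = x := by rw [a4]; exact hr3
    have b2 : F' x = x := by rw [a5]; exact hr3'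
    exact ⟨by rw [b1, b2], ⟨0, by simpa using b1⟩, ⟨0, by simpa using b2⟩⟩

theorem core' (hflx : FLXStmt) {C : Set ℂ} (hC : Body C) {φ φ' x : ℝ} (hS : NoSeg C φ)
    (hS' : NoSeg C φ') (hφ : φ < φ') (h3 : fl C φ' x ≤ fl C φ x) :
    fl C φ' x = fl C φ x ∧ Fx (fl C φ) x ∧ Fx (fl C φ') x := by
  have hP : (0:ℝ) < 2 * π := by positivity
  set k : ℤ := ⌊(fl C φ x - x) / (2 * π)⌋ with hk
  have h1 := Int.floor_le ((fl C φ x - x) / (2 * π))
  rw [le_div_iff₀ hP, ← hk] at h1
  have h2 := Int.lt_floor_add_one ((fl C φ x - x) / (2 * π))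
  rw [div_lt_iff₀ hP, ← hk] at h2
  obtain ⟨n1, e1⟩ := fl_int hflx hC hS (-k)
  obtain ⟨n2, e2⟩ := fl_int hflx hC hS' (-k)
  have f1 := (hflx C _ hC n1).1
  have f2 := (hflx C _ hC n2).1
  have e1x := e1 x
  have e2x := e2 x
  push_cast at e1x e2x n1 n2 f1 f2
  obtain ⟨g1, ⟨k1, g2⟩, k2, g3⟩ := core hC (x := x) (by linarith : φ + -(k : ℝ) * π < φ' + -k * π)
    f1 f2 (by rw [e1x]; linarith) (by rw [e1x]; linarith) (by rw [e1x, e2x]; linarith)
  rw [e1x, e2x] at g1
  rw [e1x] at g2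
  rw [e2x] at g3
  exact ⟨by linarith, ⟨k1 + k, by push_cast; linarith⟩, ⟨k2 + k, by push_cast; linarith⟩⟩

end MNF

open MNF in
/-- **Row MNF.** -/
theorem t_mnf (hflx : FLXStmt) (_hflb : FLBStmt) : MNFStmt := by
  intro C φ φ' x hC hS hS' hφ
  constructor
  · by_contra hcon
    push Not at hcon
    have := (core' hflx hC hS hS' hφ hcon.le).1
    linarith
  · intro h
    by_contra hcon
    push Not at hcon
    obtain ⟨-, h1, h2⟩ := core' hflx hC hS hS' hφ hcon
    rcases h with h | h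
    · exact h h1
    · exact h h2

end Pool.XR2
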